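import Pool.Agent.Run7.h908.JP.JB

/-!
# Project JPL (helper784): JKILL2 (helper908)
-/

set_option autoImplicit false
set_option linter.all false

open Polynomial IsDedekindDomain
open scoped Classical

namespace Run7.h908.JP

open Pool.Agent.N874.PP (Ov Ev Sq1)
open Pool.Agent.N352.PJ (IsGen Crd LocIm SelZero Fam GoodR Ht dsc)
open Run7.h875.TS (chi cd IsPC GSq irrD dg NRs uT sqf prD sqL sz Tr)
open Run7.h784.TG (P_COMB P_W P_STK P_DIC P_KILL FacR nv zp evt Fm nf evd nr Full)
open Run7.h286.PL (del0 del1)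
open Run7.h784.JP
open Run7.h908.TG
open Run7.h908.PL (c2_eq div_m)
open Run7.h437.TS (trs card_zero_le one_le_sqrt_cd abs_chi_le aeval_zero_iff)

section

variable {k : Type} [Field k] [Finite k] {ι : Type} [Fintype ι]

/-- The content of JW, third part, for `y` at the place `i`. -/
theorem jw_main {g N : ι → ℕ} {r : ι → k[X]} {f : ι → k[X][X]} {C₁ : ℕ}
    {F : Type} [Field F] [Fintype F] [Algebra k F] (hComb : P_COMB)
    (h1 : ∀ y : ι → Y, (∀ j, IsCo (2 * g j + 1) (y j)) →
      |(∑ t : F, ∏ j, NF (f j) t (y j)) - cd F| ≤ C₁ * √(cd F)) (i : ι) (y : Y)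
    (hy : IsCo (2 * g i + 1) y) :
    |(∑ t : F, NF (f i) t y * ∏ j ∈ (Finset.univ : Finset ι).erase i, JJ (g j) (f j) t) -
      cd F * ∏ j ∈ (Finset.univ : Finset ι).erase i, del0 (g j)| ≤
      (∏ j ∈ (Finset.univ : Finset ι).erase i, ((Co (2 * g j + 1)).card : ℝ)) *
        (C₁ * √(cd F)) := by
  have h2 := multi (fun j => Co (2 * g j + 1)) (fun _ y => wt y.1) (fun j y t => NF (f j) t y)
    (fun j y hy => abs_wt (mem_Co.1 hy).1.1) ((Finset.univ : Finset ι).erase i)
    (C₁ * √(cd F)) (cd F) (fun t => NF (f i) t y) (by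
      intro p hp
      have h3 := h1 (Function.update p i y) (by
        intro j
        by_cases hj : j = i
        · subst hj; rw [Function.update_self]; exact hy
        · rw [Function.update_of_ne hj]
          exact (mem_Co.1 (hp j (Finset.mem_erase.2 ⟨hj, Finset.mem_univ _⟩))).2)
      have h4 : ∀ t : F, ∏ j, NF (f j) t (Function.update p i y j) =
          NF (f i) t y * ∏ j ∈ (Finset.univ : Finset ι).erase i, NF (f j) t (p j) := by
        intro t
        rw [← Finset.mul_prod_erase _ _ (Finset.mem_univ i), Function.update_self]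
        congr 1
        refine Finset.prod_congr rfl fun j hj => ?_
        rw [Function.update_of_ne (Finset.mem_erase.1 hj).1]
      rw [Finset.sum_congr rfl fun t _ => h4 t] at h3
      exact h3)
  have h5 : ∏ j ∈ (Finset.univ : Finset ι).erase i, ∑ y ∈ Co (2 * g j + 1), wt y.1 =
      ∏ j ∈ (Finset.univ : Finset ι).erase i, del0 (g j) :=
    Finset.prod_congr rfl fun j _ => sum_wt hComb (g j)
  rw [h5] at h2
  exact h2

/-- The content of JW, third part, for `y` at the place `i`. -/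
theorem jw_chi {g N : ι → ℕ} {r : ι → k[X]} {f : ι → k[X][X]} {E : ℝ} (i : ι)
    (z : Fin (2 * g i + 1) → k[X]) {F : Type} [Field F] [Fintype F] [Algebra k F]
    (h1 : ∀ y : ι → Y, (∀ j, IsCo (2 * g j + 1) (y j)) → ∀ B : Finset (Fin (y i).1), B.Nonempty →
      Even (∑ a ∈ B, (y i).2 a) →
      |∑ t : F, (∑ᶠ a ∈ FacR (evt (k := k) t) (f i) (y i).2,
        chi (nv (∏ b ∈ B, a b) (zp (evt (k := k) t) z))) *
          ∏ j ∈ (Finset.univ : Finset ι).erase i, NF (f j) t (y j)| ≤ E) (y : Y)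
    (hy : IsCo (2 * g i + 1) y) (B : Finset (Fin y.1)) (hB : B.Nonempty)
    (hev : Even (∑ a ∈ B, y.2 a)) :
    |∑ t : F, (∑ᶠ a ∈ FacR (evt (k := k) t) (f i) y.2,
        chi (nv (∏ b ∈ B, a b) (zp (evt (k := k) t) z))) *
          ∏ j ∈ (Finset.univ : Finset ι).erase i, JJ (g j) (f j) t| ≤
      (∏ j ∈ (Finset.univ : Finset ι).erase i, ((Co (2 * g j + 1)).card : ℝ)) * E := by
  have h2 := multi (fun j => Co (2 * g j + 1)) (fun _ y => wt y.1) (fun j y t => NF (f j) t y)
    (fun j y hy => abs_wt (mem_Co.1 hy).1.1) ((Finset.univ : Finset ι).erase i)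
    E 0 (fun t : F => ∑ᶠ a ∈ FacR (evt (k := k) t) (f i) y.2,
        chi (nv (∏ b ∈ B, a b) (zp (evt (k := k) t) z))) (by
      intro p hp
      have hq : Function.update p i y i = y := Function.update_self _ _ _
      have h3 := h1 (Function.update p i y) (by
        intro j
        by_cases hj : j = i
        · subst hj; rw [Function.update_self]; exact hy
        · rw [Function.update_of_ne hj]
          exact (mem_Co.1 (hp j (Finset.mem_erase.2 ⟨hj, Finset.mem_univ _⟩))).2)
      have h4 : ∀ t : F, ∏ j ∈ (Finset.univ : Finset ι).erase i,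
          NF (f j) t (Function.update p i y j) =
          ∏ j ∈ (Finset.univ : Finset ι).erase i, NF (f j) t (p j) := by
        intro t
        refine Finset.prod_congr rfl fun j hj => ?_
        rw [Function.update_of_ne (Finset.mem_erase.1 hj).1]
      simp only [h4] at h3
      have h5 : ∀ B : Finset (Fin y.1), B.Nonempty → Even (∑ a ∈ B, y.2 a) →
          |∑ t : F, (∑ᶠ a ∈ FacR (evt (k := k) t) (f i) y.2,
            chi (nv (∏ b ∈ B, a b) (zp (evt (k := k) t) z))) *
            ∏ j ∈ (Finset.univ : Finset ι).erase i, NF (f j) t (p j)| ≤ E := by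
        refine Eq.mp (congrArg (fun y' : Y => ∀ B : Finset (Fin y'.1), B.Nonempty →
          Even (∑ a ∈ B, y'.2 a) → |∑ t : F, (∑ᶠ a ∈ FacR (evt (k := k) t) (f i) y'.2,
            chi (nv (∏ b ∈ B, a b) (zp (evt (k := k) t) z))) *
            ∏ j ∈ (Finset.univ : Finset ι).erase i, NF (f j) t (p j)| ≤ E) hq) h3
      rw [sub_zero]
      exact h5 B hB hev)
  rw [zero_mul, sub_zero] at h2
  exact h2

/-- The bound for the number of exceptional points. -/
theorem bad_aux {F : Type} [Field F] [Fintype F] [Algebra k F] (dd ee N' : ℕ) (A : ℝ)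
    (hA : 0 ≤ A) :
    A * (2 * √(cd F) + dd + ((ee * (1 + N') : ℕ) : ℝ)) ≤
      A * (2 + dd + ee) * (1 + N') * √(cd F) := by
  have hs1' : 1 ≤ √(cd F) := one_le_sqrt_cd
  rw [mul_assoc, mul_assoc]
  refine mul_le_mul_of_nonneg_left ?_ hA
  have a1 : (0 : ℝ) ≤ (dd : ℝ) := by positivity
  have a2 : (0 : ℝ) ≤ (ee : ℝ) := by positivity
  have a3 : (0 : ℝ) ≤ (N' : ℝ) := by positivity
  have b0 : (1 : ℝ) ≤ (1 + N') * √(cd F) := by nlinarith
  have b1 : (2 : ℝ) * √(cd F) ≤ 2 * ((1 + N') * √(cd F)) := by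
    have : √(cd F) ≤ (1 + N') * √(cd F) := by nlinarith
    linarith
  have b2 : (dd : ℝ) ≤ dd * ((1 + N') * √(cd F)) := by nlinarith
  have b3 : ((ee * (1 + N') : ℕ) : ℝ) ≤ ee * ((1 + N') * √(cd F)) := by
    push_cast
    refine mul_le_mul_of_nonneg_left ?_ a2
    nlinarith
  linarith

end

/-- **JKILL2**. -/
theorem T_JKILL2 (hJW : P_JW) (hStk : P_STK) (hDic : P_DIC) (hComb : P_COMB) : P_JKILL2 := by
  intro k _ _ ι _ g N r f hf hfull
  obtain ⟨C₁, hW⟩ := hJW k ι g N r f hf hfull
  haveI := Fintype.ofFinite k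
  have hg : ∀ i, 1 ≤ g i := fun i => (hf.fm i).g1
  have hmon : ∀ i, (f i).Monic := fun i => (hf.fm i).fam.ht.mon
  have hdeg : ∀ i, (f i).natDegree = 2 * g i + 1 := fun i => (hf.fm i).fam.ht.deg
  have hdsc : ∀ i, dsc (g i) (f i) ≠ 0 := fun i => (hf.fm i).fam.sq.ne_zero
  have hdB : dB g f ≠ 0 := dB_ne hf
  set dd : ℕ := (dB g f).natDegree with hdd
  obtain ⟨PB, hPB⟩ : ∃ PB : ι → ℕ, ∀ i, PB i = MM (g i) *
    ∏ j ∈ (Finset.univ : Finset ι).erase i, BJ (g j) := ⟨_, fun _ => rfl⟩
  obtain ⟨PC, hPC⟩ : ∃ PC : ι → ℕ, ∀ i, PC i =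
    ∏ j ∈ (Finset.univ : Finset ι).erase i, (Co (2 * g j + 1)).card := ⟨_, fun _ => rfl⟩
  obtain ⟨EE, hEE⟩ : ∃ EE : ι → ℕ, ∀ i, EE i = (2 * g i + 1 + 2 * g i) * (cdg (f i) + 1) :=
    ⟨_, fun _ => rfl⟩
  obtain ⟨CC, hCC⟩ : ∃ CC : ι → ℕ, ∀ i, CC i =
    (PB i + 1) * (2 + dd + EE i) + KK (g i) * (PC i * C₁) := ⟨_, fun _ => rfl⟩
  have hCCle : ∀ i, CC i ≤ ∑ i, CC i := fun i =>
    Finset.single_le_sum (f := CC) (fun _ _ => Nat.zero_le _) (Finset.mem_univ i)
  refine ⟨∑ i, CC i, ?_⟩
  intro K _ _ _ L O _ _ _ _ _ _ _ _ _ _ _ θ hgen i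
  have hirrcond : ∀ (F : Type) [Field F] [Fintype F] [Algebra k F] (m : ℕ) (t : F),
      m = Module.finrank k F → (minpoly k t).natDegree = m → aeval t (dB g f) ≠ 0 →
      ∀ j, nr (O j) (minpoly k t) = nf (f j) t := by
    intro F _ _ _ m t hfr hdm hdt j
    have hnd : ¬ minpoly k t ∣ dsc (g j) (f j) := fun h => ae_dsc hdt j ((aeval_zero_iff t _).2 h)
    exact (hDic k K (L j) (O j) (g j) (N j) (r j) (f j) (θ j) (hf.fm j) (hgen j) F t
      (by rw [hdm, hfr]) hnd).1
  have hRgood : ∀ (F : Type) [Field F] [Fintype F] [Algebra k F] (m : ℕ) (t : F),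
      m = Module.finrank k F → (minpoly k t).natDegree = m → aeval t (dB g f) ≠ 0 →
      ∏ j ∈ (Finset.univ : Finset ι).erase i, JJ (g j) (f j) t =
        if (∀ j, j ≠ i → nr (O j) (minpoly k t) = 1) then 1 else 0 := by
    intro F _ _ _ m t hfr hdm hdt
    have h1 : ∀ j, JJ (g j) (f j) t = if nr (O j) (minpoly k t) = 1 then 1 else 0 := by
      intro j
      rw [hirrcond F m t hfr hdm hdt j]
      exact JJ_good hComb (hmon j) (hdeg j) t (hStk k F (g j) (N j) (r j) (f j) t (hf.fm j)
        (ae_dsc hdt j)).2.1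
    rw [Finset.prod_congr rfl fun j _ => h1 j, Finset.prod_ite_zero]
    simp only [Finset.prod_const_one, Finset.mem_erase, Finset.mem_univ, and_true]
  have hRbd : ∀ (F : Type) [Field F] [Fintype F] [Algebra k F] (t : F),
      |∏ j ∈ (Finset.univ : Finset ι).erase i, JJ (g j) (f j) t| ≤
        ((∏ j ∈ (Finset.univ : Finset ι).erase i, BJ (g j) : ℕ) : ℝ) := by
    intro F _ _ _ t
    rw [Finset.abs_prod]
    push_cast
    exact Finset.prod_le_prod (fun _ _ => abs_nonneg _) fun j _ => abs_JJ (hmon j) (hdeg j) t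
  have hdl : c2 (g i) * ∏ j ∈ (Finset.univ : Finset ι).erase i, del0 (g j) = dl1 g i := by
    rw [c2_eq]; rfl
  have htri : ∀ A B Cc P Q : ℝ, |A - B| ≤ P → |B - Cc| ≤ Q → |A - Cc| ≤ P + Q := by
    intro A B Cc P Q h1 h2
    rw [abs_le] at h1 h2 ⊢
    constructor <;> linarith
  refine ⟨?_, ?_⟩
  · intro m hm
    obtain ⟨F, _, _, _, hfr, hcd, hsum, hfew⟩ := trs k m hm
    set R : F → ℝ := fun t => ∏ j ∈ (Finset.univ : Finset ι).erase i, JJ (g j) (f j) t with hR
    set X : F → ℝ := fun t => (∑ i' ∈ Finset.Icc 1 (g i),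
      S1 (f i) (hmon i) (2 * i') (2 * g i + 1 - 2 * i') t) * R t with hX
    set cond : k[X] → Prop := fun Q => ¬ Q ∣ dB g f ∧ nr (O i) Q = 2 ∧
        ∀ j, j ≠ i → nr (O j) Q = 1 with hcond
    set G : F → Prop := fun t => (minpoly k t).natDegree = m ∧
      aeval t (dB g f) ≠ 0 ∧ aeval t (1 : k[X]) ≠ 0 with hG
    have hbase : ∀ t, G t → X t = if cond (minpoly k t) then 1 else 0 := by
      intro t hGt
      obtain ⟨hdm, hdt, -⟩ := hGt
      have hdti := ae_dsc hdt i
      have hpm : ((f i).map (evt (k := k) t)).Monic := (hmon i).map _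
      have hpd : ((f i).map (evt (k := k) t)).natDegree = 2 * g i + 1 := by
        rw [(hmon i).natDegree_map, hdeg]
      have hnd : ¬ minpoly k t ∣ dB g f := fun h => hdt ((aeval_zero_iff t _).2 h)
      obtain ⟨-, hsqf, -⟩ := hStk k F (g i) (N i) (r i) (f i) t (hf.fm i) hdti
      have h1 : (∑ i' ∈ Finset.Icc 1 (g i), S1 (f i) (hmon i) (2 * i') (2 * g i + 1 - 2 * i') t) =
          E2 ((f i).map (evt (k := k) t)) hpm (g i) (fun _ => 1) := by
        unfold E2
        refine Finset.sum_congr rfl fun i' hi => ?_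
        obtain ⟨h1, h2⟩ := Finset.mem_Icc.1 hi
        rw [S1_eq, two_irr hComb hpm hsqf (d := 2 * i') (e := 2 * g i + 1 - 2 * i') (by omega)
          (by omega) (by rw [hpd]; omega) (fun _ => 1)]
      have h2 : (∑ i' ∈ Finset.Icc 1 (g i), S1 (f i) (hmon i) (2 * i') (2 * g i + 1 - 2 * i') t) =
          if nf (f i) t = 2 then 1 else 0 := by
        rw [h1]
        by_cases hnf : nf (f i) t = 2
        · obtain ⟨a, ha1, ha2, ha3, ha4, ha5⟩ := two_struct hpm hpd hnf
          rw [E2_eq hpm hpd _ ha1 ha2 ha3 ha4 ha5, if_pos hnf]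
        · rw [E2_zero hpm _ hnf, if_neg hnf]
      have h3 := hRgood F m t hfr.symm hdm hdt
      have h4 := hirrcond F m t hfr.symm hdm hdt i
      rw [hX]
      dsimp only
      rw [h2, hR]
      dsimp only
      rw [h3, ← h4]
      by_cases h5 : nr (O i) (minpoly k t) = 2 <;>
        by_cases h6 : (∀ j, j ≠ i → nr (O j) (minpoly k t) = 1)
      · rw [if_pos h5, if_pos h6, if_pos (show cond (minpoly k t) from ⟨hnd, h5, h6⟩), one_mul]
      · rw [if_pos h5, if_neg h6, if_neg (show ¬ cond (minpoly k t) from fun h => h6 h.2.2), mul_zero]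
      · rw [if_neg h5, if_neg (show ¬ cond (minpoly k t) from fun h => h5 h.2.1), zero_mul]
      · rw [if_neg h5, if_neg (show ¬ cond (minpoly k t) from fun h => h5 h.2.1), zero_mul]
    have hbad : ∀ t, |X t| ≤ (PB i : ℝ) := by
      intro t
      rw [hX]
      dsimp only
      rw [abs_mul, hPB, Nat.cast_mul]
      refine mul_le_mul ?_ (hRbd F t) (abs_nonneg _) (by positivity)
      refine (Finset.abs_sum_le_sum_abs _ _).trans ?_
      unfold MM
      push_cast
      refine Finset.sum_le_sum fun i' hi => ?_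
      obtain ⟨h1, h2⟩ := Finset.mem_Icc.1 hi
      have h3 : 2 * i' + (2 * g i + 1 - 2 * i') = 2 * g i + 1 := by omega
      have h4 := abs_S1 (k := k) (f i) (hmon i) (d := 2 * i') (e := 2 * g i + 1 - 2 * i')
        (by rw [hdeg]; omega) t
      rw [h3] at h4
      push_cast at h4
      exact h4
    have hcmp := compare F m cond G X (PB i) (2 * √(cd F) + dd + ((EE i * (1 + 0) : ℕ) : ℝ))
      (Nat.cast_nonneg _) hsum (fun t h => h.1) (fun t h h' => by rw [hbase t h, if_pos h'])
      (fun t h h' => by rw [hbase t h, if_neg h']) hbad (by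
        intro s hs
        have h1 := bad_card (k := k) (F := F) (m := m) hdB one_ne_zero hfew dd 0 le_rfl (by simp) s hs
        have h2 : (0 : ℝ) ≤ ((EE i * (1 + 0) : ℕ) : ℝ) := Nat.cast_nonneg _
        push_cast at h1 h2 ⊢
        linarith)
    have hm1 : ∀ y : Y, IsCo (2 * g i + 1) y → |(∑ t : F, NF (f i) t y * R t) -
        cd F * ∏ j ∈ (Finset.univ : Finset ι).erase i, del0 (g j)| ≤
        (PC i : ℝ) * (C₁ * √(cd F)) := by
      intro y hy
      have h1 := jw_main (g := g) (N := N) (r := r) (f := f) (C₁ := C₁) (F := F) hComb (fun y hy =>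
        (hW (fun j => (y j).1) (fun j => (y j).2) (fun j => (hy j).1) (fun j => (hy j).2)).1 F) i y hy
      rw [hPC, Nat.cast_prod]
      exact h1
    have htot : |∑ t : F, X t - dl1 g i * cd F| ≤ KK (g i) * ((PC i : ℝ) * (C₁ * √(cd F))) := by
      have e1 : ∑ t : F, X t = ∑ i' ∈ Finset.Icc 1 (g i),
          ∑ t : F, S1 (f i) (hmon i) (2 * i') (2 * g i + 1 - 2 * i') t * R t := by
        rw [hX]
        dsimp only
        simp_rw [Finset.sum_mul]
        rw [Finset.sum_comm]
      rw [e1, ← hdl]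
      unfold c2 KK
      rw [Finset.sum_mul, Finset.sum_mul, ← Finset.sum_sub_distrib]
      refine (Finset.abs_sum_le_sum_abs _ _).trans ?_
      push_cast
      rw [Finset.sum_mul]
      refine Finset.sum_le_sum fun i' hi => ?_
      obtain ⟨h1, h2⟩ := Finset.mem_Icc.1 hi
      have h4 := sum_S1' (k := k) (g := g i) (hmon i) hComb (d := 2 * i')
        (e := 2 * g i + 1 - 2 * i') (by omega) (by omega) (by omega) R _ _ hm1
      have h5 : 1 / ((2 * i' : ℕ) * (2 * g i + 1 - 2 * i' : ℕ) : ℝ) *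
          (∏ j ∈ (Finset.univ : Finset ι).erase i, del0 (g j)) * cd F =
          cd F * (∏ j ∈ (Finset.univ : Finset ι).erase i, del0 (g j)) /
            (((2 * i' : ℕ) : ℝ) * ((2 * g i + 1 - 2 * i' : ℕ) : ℝ)) := by ring
      push_cast at h4 h5 ⊢
      rw [h5]
      exact h4
    rw [← hcd]
    have h7 := bad_aux (k := k) (F := F) dd (EE i) 0 ((PB i : ℝ) + 1) (by positivity)
    have h9 := htri _ _ _ _ _ (hcmp.trans h7) htot
    have h10 := div_m (Y := cd F) (c := dl1 g i) hm (by positivity) h9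
    refine le_trans (le_of_eq ?_) (h10.trans ?_)
    · congr!
    · have h11 : ((PB i : ℝ) + 1) * (2 + dd + EE i) * (1 + ((0 : ℕ) : ℝ)) * √(cd F) +
          KK (g i) * ((PC i : ℝ) * (C₁ * √(cd F))) = (CC i : ℝ) * √(cd F) := by
        rw [hCC]
        push_cast
        ring
      rw [h11]
      exact mul_le_mul_of_nonneg_right (by exact_mod_cast hCCle i) (Real.sqrt_nonneg _)
  · intro α z N' hα hsq hnsq hcrd hz m hm
    obtain ⟨F, _, _, _, hfr, hcd, hsum, hfew⟩ := trs k m hm
    have hnz0 : nz (f i) z ≠ 0 := nz_ne (hgen i) (hdsc i) hα hcrd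
    have hnzd := nz_deg (f i) z N' hz
    set R : F → ℝ := fun t => ∏ j ∈ (Finset.univ : Finset ι).erase i, JJ (g j) (f j) t with hR
    set X : F → ℝ := fun t => (∑ i' ∈ Finset.Icc 1 (g i),
      Sm (f i) (hmon i) (2 * i') (2 * g i + 1 - 2 * i') z t) * R t with hX
    set cond : k[X] → Prop := fun Q => ¬ Q ∣ dB g f ∧ nr (O i) Q = 2 ∧
        (∀ j, j ≠ i → nr (O j) Q = 1) ∧ ¬ Tr (O i) Q α with hcond
    set G : F → Prop := fun t => (minpoly k t).natDegree = m ∧
      aeval t (dB g f) ≠ 0 ∧ aeval t (nz (f i) z) ≠ 0 with hG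
    have hbase : ∀ t, G t → X t = if cond (minpoly k t) then 1 else 0 := by
      intro t hGt
      obtain ⟨hdm, hdt, hnt⟩ := hGt
      have hdti := ae_dsc hdt i
      have hpm : ((f i).map (evt (k := k) t)).Monic := (hmon i).map _
      have hpd : ((f i).map (evt (k := k) t)).natDegree = 2 * g i + 1 := by
        rw [(hmon i).natDegree_map, hdeg]
      have hnd : ¬ minpoly k t ∣ dB g f := fun h => hdt ((aeval_zero_iff t _).2 h)
      have hndi : ¬ minpoly k t ∣ dsc (g i) (f i) := ndvd_dsc hnd i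
      obtain ⟨-, hsqf, -⟩ := hStk k F (g i) (N i) (r i) (f i) t (hf.fm i) hdti
      obtain ⟨hnr, hef, hec, hd⟩ := hDic k K (L i) (O i) (g i) (N i) (r i) (f i) (θ i) (hf.fm i)
        (hgen i) F t (by rw [hdm, hfr]) hndi
      obtain ⟨-, hd1, hd2⟩ := hd α z hα hsq hcrd (nv_nz (hdeg i) z t hnt)
      have h1 : (∑ i' ∈ Finset.Icc 1 (g i), Sm (f i) (hmon i) (2 * i') (2 * g i + 1 - 2 * i') z t) =
          E2 ((f i).map (evt (k := k) t)) hpm (g i) (psi z t) := by
        unfold E2
        refine Finset.sum_congr rfl fun i' hi => ?_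
        obtain ⟨h1, h2⟩ := Finset.mem_Icc.1 hi
        exact (two_irr hComb hpm hsqf (d := 2 * i') (e := 2 * g i + 1 - 2 * i') (by omega)
          (by omega) (by rw [hpd]; omega) (psi z t)).symm
      have h2 : (∑ i' ∈ Finset.Icc 1 (g i), Sm (f i) (hmon i) (2 * i') (2 * g i + 1 - 2 * i') z t) =
          if (nr (O i) (minpoly k t) = 2 ∧ ¬ Tr (O i) (minpoly k t) α) then 1 else 0 := by
        rw [h1]
        by_cases hnf : nf (f i) t = 2
        · obtain ⟨a, ha1, ha2, ha3, ha4, ha5⟩ := two_struct hpm hpd hnf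
          rw [E2_eq hpm hpd _ ha1 ha2 ha3 ha4 ha5]
          have haE : a ∈ evd (f i) t := ⟨ha1, ha2, ha3⟩
          have h1E : (1 : F[X]) ∈ evd (f i) t := ⟨monic_one, one_dvd _, by simp⟩
          have hne : (1 : F[X]) ≠ a := fun h => ha4.not_isUnit (h ▸ isUnit_one)
          have hEq : evd (f i) t = {1, a} := by
            symm
            apply Set.eq_of_subset_of_ncard_le _ _ hef
            · intro x hx
              rcases hx with rfl | hx
              · exact h1E
              · rw [Set.mem_singleton_iff] at hx; rw [hx]; exact haE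
            · rw [hec, hnf, Set.ncard_pair hne]; norm_num
          by_cases hTr : Tr (O i) (minpoly k t) α
          · rw [if_neg (fun h => h.2 hTr)]
            unfold psi
            rw [hd1 hTr a haE]
            norm_num
          · rw [if_pos ⟨by rw [hnr, hnf], hTr⟩]
            have h4 := hd2 hTr
            rw [hEq, finsum_mem_pair hne] at h4
            have h5 : chi (nv (1 : F[X]) (zp (evt (k := k) t) z)) = 1 := by
              unfold nv chi
              have : Subsingleton (AdjoinRoot (1 : F[X])) := by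
                apply subsingleton_of_zero_eq_one
                have : AdjoinRoot.mk (1 : F[X]) 1 = 0 := AdjoinRoot.mk_self
                rw [← this, map_one]
              rw [Subsingleton.elim (AdjoinRoot.mk (1 : F[X]) (zp (evt (k := k) t) z)) 1, map_one,
                map_one]
              norm_num
            rw [h5] at h4
            unfold psi
            linarith
        · rw [E2_zero hpm _ hnf, if_neg (fun h => hnf (by rw [← hnr]; exact h.1))]
      have h3 := hRgood F m t hfr.symm hdm hdt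
      rw [hX]
      dsimp only
      rw [h2, hR]
      dsimp only
      rw [h3]
      by_cases h5 : (nr (O i) (minpoly k t) = 2 ∧ ¬ Tr (O i) (minpoly k t) α) <;>
        by_cases h6 : (∀ j, j ≠ i → nr (O j) (minpoly k t) = 1)
      · rw [if_pos h5, if_pos h6,
          if_pos (show cond (minpoly k t) from ⟨hnd, h5.1, h6, h5.2⟩), one_mul]
      · rw [if_pos h5, if_neg h6, if_neg (show ¬ cond (minpoly k t) from fun h => h6 h.2.2.1),
          mul_zero]
      · rw [if_neg h5, if_neg (show ¬ cond (minpoly k t) from fun h => h5 ⟨h.2.1, h.2.2.2⟩),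
          zero_mul]
      · rw [if_neg h5, if_neg (show ¬ cond (minpoly k t) from fun h => h5 ⟨h.2.1, h.2.2.2⟩),
          zero_mul]
    have hbad : ∀ t, |X t| ≤ (PB i : ℝ) := by
      intro t
      rw [hX]
      dsimp only
      rw [abs_mul, hPB, Nat.cast_mul]
      refine mul_le_mul ?_ (hRbd F t) (abs_nonneg _) (by positivity)
      refine (Finset.abs_sum_le_sum_abs _ _).trans ?_
      unfold MM
      push_cast
      refine Finset.sum_le_sum fun i' hi => ?_
      obtain ⟨h1, h2⟩ := Finset.mem_Icc.1 hi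
      have h3 : 2 * i' + (2 * g i + 1 - 2 * i') = 2 * g i + 1 := by omega
      have h4 := abs_Sm (k := k) (f i) (hmon i) (d := 2 * i') (e := 2 * g i + 1 - 2 * i')
        (by rw [hdeg]; omega) z t
      rw [h3] at h4
      push_cast at h4
      exact h4
    have hcmp := compare F m cond G X (PB i) (2 * √(cd F) + dd + ((EE i * (1 + N') : ℕ) : ℝ))
      (Nat.cast_nonneg _) hsum (fun t h => h.1) (fun t h h' => by rw [hbase t h, if_pos h'])
      (fun t h h' => by rw [hbase t h, if_neg h']) hbad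
      (bad_card (k := k) (F := F) (m := m) hdB hnz0 hfew dd _ le_rfl (hnzd.trans (by
        rw [hEE, mul_assoc]
        refine Nat.mul_le_mul_left _ ?_
        nlinarith [Nat.zero_le (cdg (f i) * N')])))
    have hm1 : ∀ y : Y, IsCo (2 * g i + 1) y → |(∑ t : F, NF (f i) t y * R t) -
        cd F * ∏ j ∈ (Finset.univ : Finset ι).erase i, del0 (g j)| ≤
        (PC i : ℝ) * (C₁ * (1 + N') * √(cd F)) := by
      intro y hy
      have h1 := jw_main (g := g) (N := N) (r := r) (f := f) (C₁ := C₁) (F := F) hComb (fun y hy =>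
        (hW (fun j => (y j).1) (fun j => (y j).2) (fun j => (hy j).1) (fun j => (hy j).2)).1 F) i y hy
      rw [hPC, Nat.cast_prod]
      refine h1.trans (mul_le_mul_of_nonneg_left ?_ (Finset.prod_nonneg fun _ _ =>
        Nat.cast_nonneg _))
      refine mul_le_mul_of_nonneg_right ?_ (Real.sqrt_nonneg _)
      have : (0 : ℝ) ≤ (C₁ : ℝ) * N' := mul_nonneg (Nat.cast_nonneg _) (Nat.cast_nonneg _)
      linarith
    have hm2 : ∀ y : Y, IsCo (2 * g i + 1) y → ∀ B : Finset (Fin y.1), B.Nonempty →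
        Even (∑ a ∈ B, y.2 a) →
        |∑ t : F, (∑ᶠ a ∈ FacR (evt (k := k) t) (f i) y.2,
          chi (nv (∏ b ∈ B, a b) (zp (evt (k := k) t) z))) * R t| ≤
        (PC i : ℝ) * (C₁ * (1 + N') * √(cd F)) := by
      intro y hy B hB hev
      have h1 := jw_chi (g := g) (N := N) (r := r) (f := f) (E := C₁ * (1 + N') * √(cd F)) (F := F)
        i z (fun y hy B hB hev => (hW (fun j => (y j).1) (fun j => (y j).2) (fun j => (hy j).1)
          (fun j => (hy j).2)).2.2 i B hB hev K (L i) (θ i) (hgen i) α z N' hα hsq hnsq hcrd hz F)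
        y hy B hB hev
      rw [hPC, Nat.cast_prod]
      exact h1
    have htot : |∑ t : F, X t - dl1 g i / 2 * cd F| ≤
        KK (g i) * ((PC i : ℝ) * (C₁ * (1 + N') * √(cd F))) := by
      have e1 : ∑ t : F, X t = ∑ i' ∈ Finset.Icc 1 (g i),
          ∑ t : F, Sm (f i) (hmon i) (2 * i') (2 * g i + 1 - 2 * i') z t * R t := by
        rw [hX]
        dsimp only
        simp_rw [Finset.sum_mul]
        rw [Finset.sum_comm]
      rw [e1, ← hdl]
      unfold c2 KK
      rw [Finset.sum_mul, Finset.sum_div, Finset.sum_mul, ← Finset.sum_sub_distrib]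
      refine (Finset.abs_sum_le_sum_abs _ _).trans ?_
      push_cast
      rw [Finset.sum_mul]
      refine Finset.sum_le_sum fun i' hi => ?_
      obtain ⟨h1, h2⟩ := Finset.mem_Icc.1 hi
      have h4 := sum_Sm' (k := k) (g := g i) (hmon i) hComb (d := 2 * i')
        (e := 2 * g i + 1 - 2 * i') (by omega) (by omega) (by omega) ⟨i', by omega⟩ z R _ _ hm1 hm2
      have h5 : 1 / ((2 * i' : ℕ) * (2 * g i + 1 - 2 * i' : ℕ) : ℝ) *
          (∏ j ∈ (Finset.univ : Finset ι).erase i, del0 (g j)) / 2 * cd F =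
          cd F * (∏ j ∈ (Finset.univ : Finset ι).erase i, del0 (g j)) / 2 /
            (((2 * i' : ℕ) : ℝ) * ((2 * g i + 1 - 2 * i' : ℕ) : ℝ)) := by ring
      push_cast at h4 h5 ⊢
      rw [h5]
      exact h4
    rw [← hcd]
    have h7 := bad_aux (k := k) (F := F) dd (EE i) N' ((PB i : ℝ) + 1) (by positivity)
    have h9 := htri _ _ _ _ _ (hcmp.trans h7) htot
    have h10 := div_m (Y := cd F) (c := dl1 g i / 2) hm (by positivity) h9
    refine le_trans (le_of_eq ?_) (h10.trans ?_)
    · congr!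
    · have h11 : ((PB i : ℝ) + 1) * (2 + dd + EE i) * (1 + (N' : ℝ)) * √(cd F) +
          KK (g i) * ((PC i : ℝ) * (C₁ * (1 + N') * √(cd F))) =
          (CC i : ℝ) * (1 + N') * √(cd F) := by
        rw [hCC]
        push_cast
        ring
      rw [h11]
      refine mul_le_mul_of_nonneg_right ?_ (Real.sqrt_nonneg _)
      refine mul_le_mul_of_nonneg_right ?_ (by positivity)
      exact_mod_cast hCCle i

end Run7.h908.JP
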