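import Pool.Agent.Run7.h908.JP.JB

/-!
# Project JPL (helper784): JLAST2 (helper908)
-/

set_option autoImplicit false
set_option linter.all false

open Polynomial IsDedekindDomain
open scoped Classical

namespace Run7.h908.JP

open Pool.Agent.N874.PP (Ov Ev Sq1)
open Pool.Agent.N352.PJ (IsGen Crd LocIm SelZero Fam GoodR Ht dsc)
open Run7.h875.TS (chi cd IsPC GSq irrD dg NRs uT sqf prD sqL sz Tr)
open Run7.h784.TG (P_COMB P_W P_STK P_DIC P_KILL FacR nv zp evt Fm nf evd nr Full)
open Run7.h286.PL (del0 del1)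
open Run7.h784.JP
open Run7.h437.TS (recip_pt abs_fac2 natDegree_prod_S trs expand_e chi_prod aeval_zero_iff)
open UniqueFactorizationMonoid
open Run7.h973.TG (ringChar_ne prod_good)
open Run7.h908.TG
open Run7.h908.PL (div_m)

/-- **JLAST2**. -/
theorem T_JLAST2 (hJW : P_JW) (hDic : P_DIC) (hComb : P_COMB) (hStk : P_STK) : P_JLAST2 := by
  intro k _ _ ι _ g N r f hf hfull
  obtain ⟨C₁, hW⟩ := hJW k ι g N r f hf hfull
  haveI := Fintype.ofFinite k
  have hk := ringChar_ne hf.two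
  have hmon : ∀ i, (f i).Monic := fun i => (hf.fm i).fam.ht.mon
  have hdeg : ∀ i, (f i).natDegree = 2 * g i + 1 := fun i => (hf.fm i).fam.ht.deg
  have hd0 : dB g f ≠ 0 := dB_ne hf
  set dd : ℕ := (dB g f).natDegree with hdd
  obtain ⟨B₀, hB₀⟩ : ∃ B₀ : ℕ, B₀ = ∏ j, BJ (g j) := ⟨_, rfl⟩
  obtain ⟨PC, hPC⟩ : ∃ PC : ℕ, PC = ∏ j, (Co (2 * g j + 1)).card := ⟨_, rfl⟩
  refine ⟨PC * C₁ + (1 + B₀) * (3 + dd), ?_⟩
  intro K _ _ _ L O _ _ _ _ _ _ _ _ _ _ _ θ hgen S η hS m hm
  obtain ⟨F, _, _, _, hfr, hcd, hsum, hfew⟩ := trs k m hm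
  set Jt : F → ℝ := fun t => ∏ j, JJ (g j) (f j) t with hJt
  set sP : k[X] → ℝ := fun P =>
    ((quadraticChar k (-1) ^ (P.natDegree * m) : ℤ) : ℝ) * (if η P then 1 else -1) with hsP
  set x : k[X] → F → ℝ := fun P t => chi (aeval t P) with hx
  have hsP1 : ∀ P, |sP P| = 1 := by
    intro P
    rw [hsP]
    dsimp only
    have h1 : |((quadraticChar k (-1) ^ (P.natDegree * m) : ℤ) : ℝ)| = 1 := by
      push_cast
      rw [abs_pow]
      rcases quadraticChar_dichotomy (F := k) (a := -1) (by simp) with h | h <;> rw [h] <;> simp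
    rw [abs_mul, h1]
    split_ifs <;> simp
  obtain ⟨E, hE⟩ : ∃ E : ℝ, E = C₁ * (1 + dg S) * √(cd F) := ⟨_, rfl⟩
  have hdg0 : (0 : ℝ) ≤ (dg S : ℝ) := Nat.cast_nonneg _
  have hPd : ∀ P ∈ S, P.Monic ∧ Irreducible P ∧ ¬ P ∣ dB g f := hS
  -- the main sum
  have hmain : |(∑ t : F, Jt t * ∏ P ∈ S, (sP P * x P t + 1)) - cd F * dl0 g| ≤
      2 ^ S.card * (PC * E) := by
    refine expand_e _ sP x (cd F * dl0 g) _ S (fun P => (hsP1 P).le) ?_ ?_
    · have h2 := multi (fun j => Co (2 * g j + 1)) (fun _ y => wt y.1)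
        (fun j y t => NF (k := k) (F := F) (f j) t y)
        (fun j y hy => abs_wt (mem_Co.1 hy).1.1) Finset.univ E (cd F) (fun _ => 1) (by
          intro p hp
          simp only [one_mul]
          refine ((hW (fun j => (p j).1) (fun j => (p j).2)
            (fun j => (mem_Co.1 (hp j (Finset.mem_univ _))).2.1)
            (fun j => (mem_Co.1 (hp j (Finset.mem_univ _))).2.2)).1 F).trans ?_
          rw [hE]
          refine mul_le_mul_of_nonneg_right ?_ (Real.sqrt_nonneg _)
          nlinarith [mul_nonneg (Nat.cast_nonneg C₁ : (0:ℝ) ≤ C₁) hdg0])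
      simp only [one_mul] at h2
      have h5 : ∏ j, ∑ y ∈ Co (2 * g j + 1), wt y.1 = dl0 g :=
        Finset.prod_congr rfl fun j _ => sum_wt hComb (g j)
      rw [h5] at h2
      rw [hPC, Nat.cast_prod]
      exact h2
    · intro A hA hA0
      have hAg := prod_good (dB g f) A fun P hP => hS P (hA hP)
      have hApos : 0 < (∏ P ∈ A, P).natDegree := by
        obtain ⟨P, hP⟩ := Finset.nonempty_iff_ne_empty.2 hA0
        have h1 : P ∣ ∏ P ∈ A, P := Finset.dvd_prod_of_mem _ hP
        exact ((hS P (hA hP)).2.1.natDegree_pos).trans_le (natDegree_le_of_dvd h1 hAg.1.ne_zero)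
      have h2 := multi (fun j => Co (2 * g j + 1)) (fun _ y => wt y.1)
        (fun j y t => NF (k := k) (F := F) (f j) t y)
        (fun j y hy => abs_wt (mem_Co.1 hy).1.1) Finset.univ E 0
        (fun t => chi (aeval t (∏ P ∈ A, P))) (by
          intro p hp
          rw [sub_zero]
          refine ((hW (fun j => (p j).1) (fun j => (p j).2)
            (fun j => (mem_Co.1 (hp j (Finset.mem_univ _))).2.1)
            (fun j => (mem_Co.1 (hp j (Finset.mem_univ _))).2.2)).2.1 (∏ P ∈ A, P)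
              hAg.1 hAg.2 hApos F).trans ?_
          rw [hE]
          refine mul_le_mul_of_nonneg_right ?_ (Real.sqrt_nonneg _)
          refine mul_le_mul_of_nonneg_left ?_ (Nat.cast_nonneg _)
          have h3 : (((∏ P ∈ A, P).natDegree : ℕ) : ℝ) ≤ ((dg S : ℕ) : ℝ) := by
            exact_mod_cast natDegree_prod_S S A hA
          linarith)
      rw [zero_mul, sub_zero] at h2
      rw [hPC, Nat.cast_prod]
      refine le_trans (le_of_eq ?_) h2
      congr 1
      refine Finset.sum_congr rfl fun t _ => ?_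
      rw [map_prod, chi_prod, mul_comm]
      rfl
  -- pointwise
  set cond : k[X] → Prop := fun Q => ¬ Q ∣ dB g f ∧ (∀ j, nr (O j) Q = 1) ∧ Q ∉ S ∧
          ∀ P ∈ S, (∃ z : k[X], P ∣ z ^ 2 - Q) ↔ η P with hcond
  set G : F → Prop := fun t => (minpoly k t).natDegree = m ∧
    aeval t (dB g f) ≠ 0 ∧ ∀ P ∈ S, aeval t P ≠ 0 with hG
  set X : F → ℝ := fun t => Jt t * ∏ P ∈ S, ((sP P * x P t + 1) / 2) with hX
  have hJB : ∀ t : F, |Jt t| ≤ (B₀ : ℝ) := by
    intro t
    rw [hJt, hB₀]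
    dsimp only
    rw [Finset.abs_prod]
    push_cast
    exact Finset.prod_le_prod (fun _ _ => abs_nonneg _) fun j _ => abs_JJ (hmon j) (hdeg j) t
  have hPB : ∀ t : F, |∏ P ∈ S, ((sP P * x P t + 1) / 2)| ≤ 1 := by
    intro t
    rw [Finset.abs_prod]
    refine Finset.prod_le_one (fun _ _ => abs_nonneg _) fun P _ => ?_
    exact abs_fac2 (hsP1 P).le (Run7.h437.TS.abs_chi_le _)
  have hirr : ∀ t : F, (minpoly k t).natDegree = m → aeval t (dB g f) ≠ 0 →
      ∀ j, nr (O j) (minpoly k t) = nf (f j) t := by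
    intro t hdm hdt j
    have hnd : ¬ minpoly k t ∣ dsc (g j) (f j) := fun h => ae_dsc hdt j ((aeval_zero_iff t _).2 h)
    exact (hDic k K (L j) (O j) (g j) (N j) (r j) (f j) (θ j) (hf.fm j) (hgen j) F t
      (by rw [hdm, hfr]) hnd).1
  have hJgood : ∀ t : F, (minpoly k t).natDegree = m → aeval t (dB g f) ≠ 0 →
      Jt t = if (∀ j, nr (O j) (minpoly k t) = 1) then (1 : ℝ) else 0 := by
    intro t hdm hdt
    have h1 : ∀ j, JJ (g j) (f j) t = if nr (O j) (minpoly k t) = 1 then 1 else 0 := by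
      intro j
      rw [hirr t hdm hdt j]
      exact JJ_good hComb (hmon j) (hdeg j) t (hStk k F (g j) (N j) (r j) (f j) t (hf.fm j)
        (ae_dsc hdt j)).2.1
    rw [hJt]
    dsimp only
    rw [Finset.prod_congr rfl fun j _ => h1 j, Finset.prod_ite_zero]
    simp only [Finset.prod_const_one, Finset.mem_univ, true_implies]
  have hone : ∀ t, G t → cond (minpoly k t) → X t = 1 := by
    rintro t ⟨hdeg, hdsc, hPS⟩ ⟨hnd, hnr, -, hη⟩
    rw [hX]
    dsimp only
    rw [hJgood t hdeg hdsc, if_pos hnr, one_mul]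
    refine Finset.prod_eq_one fun P hP => ?_
    obtain ⟨hPm, hPi, -⟩ := hS P hP
    have h2 := recip_pt hk t (by rw [hdeg, hfr]) hPm hPi (hPS P hP)
    have h3 := hη P hP
    rw [h2, hdeg] at h3
    rw [hsP, hx]
    dsimp only
    unfold chi
    rcases quadraticChar_dichotomy (F := k) (a := -1) (by simp) with h | h <;>
      rcases quadraticChar_dichotomy (F := F) (a := aeval t P) (hPS P hP) with h' | h' <;>
      rw [h, h'] at h3 <;> rw [h, h'] <;>
      rcases neg_one_pow_eq_or ℤ (P.natDegree * m) with h'' | h'' <;>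
      (try rw [h''] at h3) <;> (try rw [h'']) <;>
      by_cases hη' : η P <;> simp [hη'] at h3 ⊢
  have hzero : ∀ t, G t → ¬ cond (minpoly k t) → X t = 0 := by
    intro t hGt hc
    rw [hX]
    dsimp only
    by_contra hne
    apply hc
    have hne1 : Jt t ≠ 0 := fun h => hne (by rw [h, zero_mul])
    have hne2 : ∀ P ∈ S, (sP P * x P t + 1) / 2 ≠ 0 := fun P hP h =>
      hne (by rw [Finset.prod_eq_zero hP h, mul_zero])
    obtain ⟨hdeg, hdsc, hPS⟩ := hGt
    have hnd : ¬ minpoly k t ∣ dB g f := fun h => hdsc ((aeval_zero_iff t _).2 h)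
    refine ⟨hnd, ?_, ?_, ?_⟩
    · rw [hJgood t hdeg hdsc] at hne1
      by_contra h
      exact hne1 (if_neg h)
    · intro h
      exact hPS _ h (minpoly.aeval k t)
    · intro P hP
      obtain ⟨hPm, hPi, -⟩ := hS P hP
      have h1 := hne2 P hP
      have h2 := recip_pt hk t (by rw [hdeg, hfr]) hPm hPi (hPS P hP)
      rw [h2, hdeg]
      have h3 : sP P * x P t ≠ -1 := by
        intro h
        apply h1
        rw [h]
        norm_num
      rw [hsP, hx] at h3
      dsimp only at h3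
      unfold chi at h3
      rcases quadraticChar_dichotomy (F := k) (a := -1) (by simp) with h | h <;>
        rcases quadraticChar_dichotomy (F := F) (a := aeval t P) (hPS P hP) with h' | h' <;>
        rw [h, h'] at h3 <;> rw [h, h'] <;>
        rcases neg_one_pow_eq_or ℤ (P.natDegree * m) with h'' | h'' <;>
        (try rw [h''] at h3) <;> (try rw [h'']) <;>
        by_cases hη : η P <;> simp [hη] at h3 ⊢
  have hbadX : ∀ t, |X t| ≤ (B₀ : ℝ) := by
    intro t
    rw [hX]
    dsimp only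
    rw [abs_mul]
    calc |Jt t| * |∏ P ∈ S, ((sP P * x P t + 1) / 2)| ≤ B₀ * 1 :=
          mul_le_mul (hJB t) (hPB t) (abs_nonneg _) (Nat.cast_nonneg _)
      _ = B₀ := mul_one _
  have hbad : ∀ s : Finset F, (∀ t ∈ s, ¬ G t) → (s.card : ℝ) ≤ 2 * √(cd F) + dd + dg S := by
    intro s hs
    have h1 : s ⊆
        (Finset.univ.filter fun t : F => (minpoly k t).natDegree ≠ m) ∪
        ((Finset.univ.filter fun t : F => aeval t (dB g f) = 0) ∪
        (S.biUnion fun P => Finset.univ.filter fun t : F => aeval t P = 0)) := by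
      intro t ht
      rw [Finset.mem_union, Finset.mem_union, Finset.mem_filter, Finset.mem_filter,
        Finset.mem_biUnion]
      by_contra hcon
      push Not at hcon
      obtain ⟨h1, h2, h3⟩ := hcon
      apply hs t ht
      refine ⟨h1 (Finset.mem_univ _), h2 (Finset.mem_univ _), fun P hP h => ?_⟩
      exact h3 P hP (by simp [h])
    have h2 := (Finset.card_le_card h1).trans ((Finset.card_union_le _ _).trans
      (add_le_add le_rfl ((Finset.card_union_le _ _).trans (add_le_add le_rfl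
        Finset.card_biUnion_le))))
    have h3 : (Finset.univ.filter fun t : F => aeval t (dB g f) = 0).card ≤ dd :=
      Run7.h437.TS.card_zero_le hd0
    have h4 : ∑ P ∈ S, (Finset.univ.filter fun t : F => aeval t P = 0).card ≤ dg S :=
      Finset.sum_le_sum fun P hP => Run7.h437.TS.card_zero_le (hS P hP).1.ne_zero
    have h5 : (s.card : ℝ) ≤
        ((Finset.univ.filter fun t : F => (minpoly k t).natDegree ≠ m).card : ℝ) + (dd + dg S) := by
      exact_mod_cast h2.trans (add_le_add le_rfl (add_le_add h3 h4))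
    linarith
  have hfac : ∑ t : F, X t =
      (1 / 2) ^ S.card * ∑ t : F, Jt t * ∏ P ∈ S, (sP P * x P t + 1) := by
    rw [Finset.mul_sum]
    refine Finset.sum_congr rfl fun t _ => ?_
    rw [hX]
    dsimp only
    rw [Finset.prod_div_distrib, Finset.prod_const, one_div_pow]
    ring
  have hcmp := compare F m cond G X B₀ (2 * √(cd F) + dd + dg S) (Nat.cast_nonneg _) hsum
    (fun t h => h.1) hone hzero hbadX hbad
  have hs1 : 1 ≤ √(cd F) := Run7.h437.TS.one_le_sqrt_cd
  have hdd0 : (0 : ℝ) ≤ (dd : ℝ) := Nat.cast_nonneg _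
  have hB0 : (0 : ℝ) ≤ (B₀ : ℝ) := Nat.cast_nonneg _
  have htot : |∑ t : F, X t - dl0 g * (1 / 2) ^ S.card * cd F| ≤ PC * C₁ * (1 + dg S) * √(cd F) := by
    have e1 : ∑ t : F, X t - dl0 g * (1 / 2) ^ S.card * cd F = (1 / 2) ^ S.card *
        ((∑ t : F, Jt t * ∏ P ∈ S, (sP P * x P t + 1)) - cd F * dl0 g) := by
      rw [hfac]
      ring
    have e0 : (0 : ℝ) < (1 / 2) ^ S.card := pow_pos (by norm_num) _
    rw [e1, abs_mul, abs_of_pos e0]
    refine (mul_le_mul_of_nonneg_left hmain e0.le).trans (le_of_eq ?_)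
    rw [← mul_assoc, ← mul_pow, hE]
    norm_num
    ring
  rw [← hcd]
  have h6 : ((B₀ : ℝ) + 1) * (2 * √(cd F) + dd + dg S) ≤ (1 + B₀) * (3 + dd) * (1 + dg S) * √(cd F) := by
    have h7 : (2 * √(cd F) + dd + dg S : ℝ) ≤ (3 + dd) * (1 + dg S) * √(cd F) := by
      nlinarith [mul_nonneg hdd0 (by linarith : (0:ℝ) ≤ √(cd F) - 1),
        mul_nonneg hdg0 (by linarith : (0:ℝ) ≤ √(cd F) - 1),
        mul_nonneg (mul_nonneg hdd0 hdg0) (by linarith : (0:ℝ) ≤ √(cd F)),
        mul_nonneg hdg0 (by linarith : (0:ℝ) ≤ √(cd F))]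
    calc ((B₀ : ℝ) + 1) * (2 * √(cd F) + dd + dg S) ≤ ((B₀ : ℝ) + 1) * ((3 + dd) * (1 + dg S) * √(cd F)) :=
          mul_le_mul_of_nonneg_left h7 (by linarith)
      _ = _ := by ring
  have htri : ∀ A B Cc P Q : ℝ, |A - B| ≤ P → |B - Cc| ≤ Q → |A - Cc| ≤ P + Q := by
    intro A B Cc P Q h1 h2
    rw [abs_le] at h1 h2 ⊢
    constructor <;> linarith
  have h9 := htri _ _ _ _ _ (hcmp.trans h6) htot
  have h10 := div_m (Y := cd F) (c := dl0 g * (1 / 2) ^ S.card) hm
    ((abs_nonneg _).trans h9) h9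
  refine le_trans (le_of_eq ?_) (h10.trans (le_of_eq ?_))
  · congr!
  · push_cast; ring

end Run7.h908.JP
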