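import Pool.Agent.Run7.h784.JP.Stm
import Pool.Agent.Run7.h908.PL.LAST2

/-!
# Project JPL (helper784): tools for the joint counts (helper908)
-/

set_option autoImplicit false
set_option linter.all false

open Polynomial IsDedekindDomain
open scoped Classical

namespace Run7.h908.JP

open Pool.Agent.N874.PP (Ov Ev Sq1)
open Pool.Agent.N352.PJ (IsGen Crd LocIm SelZero Fam GoodR Ht dsc)
open Run7.h875.TS (chi cd IsPC GSq irrD dg NRs uT sqf prD sqL sz Tr)
open Run7.h784.TG (P_COMB P_W P_STK P_DIC P_KILL FacR nv zp evt Fm nf evd nr Full)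
open Run7.h286.PL (del0 del1)
open Run7.h784.JP
open Run7.h908.TG

/-- Multilinear expansion with weights. -/
theorem multi {F Y ι : Type} [Fintype F] [Nonempty Y] (A : ι → Finset Y) (w : ι → Y → ℝ)
    (N : ι → Y → F → ℝ) (hw : ∀ j, ∀ y ∈ A j, |w j y| ≤ 1) (s : Finset ι) (E M : ℝ) :
    ∀ Ψ : F → ℝ, (∀ p : ι → Y, (∀ j ∈ s, p j ∈ A j) →
      |∑ t, Ψ t * ∏ j ∈ s, N j (p j) t - M| ≤ E) →
    |∑ t, Ψ t * ∏ j ∈ s, (∑ y ∈ A j, w j y * N j y t) - M * ∏ j ∈ s, ∑ y ∈ A j, w j y| ≤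
      (∏ j ∈ s, ((A j).card : ℝ)) * E := by
  induction s using Finset.induction_on with
  | empty =>
    intro Ψ h
    have := h (fun _ => Classical.arbitrary Y) (by simp)
    simpa using this
  | insert a s ha ih =>
    intro Ψ h
    have h1 : ∀ y ∈ A a, |∑ t, (Ψ t * N a y t) * ∏ j ∈ s, (∑ y ∈ A j, w j y * N j y t) -
        M * ∏ j ∈ s, ∑ y ∈ A j, w j y| ≤ (∏ j ∈ s, ((A j).card : ℝ)) * E := by
      intro y hy
      refine ih (fun t => Ψ t * N a y t) fun p hp => ?_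
      have h2 := h (Function.update p a y) (by
        intro j hj
        by_cases hja : j = a
        · subst hja; rw [Function.update_self]; exact hy
        · rw [Function.update_of_ne hja]
          exact hp j ((Finset.mem_insert.1 hj).resolve_left hja))
      have h3 : ∀ t, Ψ t * ∏ j ∈ insert a s, N j (Function.update p a y j) t =
          Ψ t * N a y t * ∏ j ∈ s, N j (p j) t := by
        intro t
        rw [Finset.prod_insert ha, Function.update_self, mul_assoc]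
        congr 2
        refine Finset.prod_congr rfl fun j hj => ?_
        rw [Function.update_of_ne (by rintro rfl; exact ha hj)]
      rw [Finset.sum_congr rfl fun t _ => h3 t] at h2
      exact h2
    have e1 : ∀ t, Ψ t * ∏ j ∈ insert a s, (∑ y ∈ A j, w j y * N j y t) =
        ∑ y ∈ A a, w a y * ((Ψ t * N a y t) * ∏ j ∈ s, (∑ y ∈ A j, w j y * N j y t)) := by
      intro t
      rw [Finset.prod_insert ha, Finset.sum_mul, Finset.mul_sum]
      refine Finset.sum_congr rfl fun y _ => by ring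
    have h4 : ∑ t, Ψ t * ∏ j ∈ insert a s, (∑ y ∈ A j, w j y * N j y t) -
        M * ∏ j ∈ insert a s, ∑ y ∈ A j, w j y =
        ∑ y ∈ A a, w a y * (∑ t, (Ψ t * N a y t) * ∏ j ∈ s, (∑ y ∈ A j, w j y * N j y t) -
          M * ∏ j ∈ s, ∑ y ∈ A j, w j y) := by
      rw [Finset.sum_congr rfl fun t _ => e1 t, Finset.sum_comm, Finset.prod_insert ha,
        Finset.sum_mul, Finset.mul_sum, ← Finset.sum_sub_distrib]
      refine Finset.sum_congr rfl fun y _ => ?_
      rw [← Finset.mul_sum]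
      ring
    rw [h4]
    refine (Finset.abs_sum_le_sum_abs _ _).trans ?_
    have h5 : ∀ y ∈ A a, |w a y * (∑ t, (Ψ t * N a y t) * ∏ j ∈ s, (∑ y ∈ A j, w j y * N j y t) -
          M * ∏ j ∈ s, ∑ y ∈ A j, w j y)| ≤ (∏ j ∈ s, ((A j).card : ℝ)) * E := by
      intro y hy
      rw [abs_mul]
      calc _ ≤ 1 * ((∏ j ∈ s, ((A j).card : ℝ)) * E) :=
            mul_le_mul (hw a y hy) (h1 y hy) (abs_nonneg _) zero_le_one
        _ = _ := one_mul _
    refine (Finset.sum_le_sum h5).trans (le_of_eq ?_)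
    rw [Finset.sum_const, nsmul_eq_mul, Finset.prod_insert ha]
    ring

/-- The compositions with their length. -/
abbrev Y : Type := Σ l : ℕ, (Fin l → ℕ)

/-- A composition of `n`. -/
def IsCo (n : ℕ) (y : Y) : Prop := (∀ a, 1 ≤ y.2 a) ∧ ∑ a, y.2 a = n

/-- Concatenation. -/
def app (x y : Y) : Y := ⟨x.1 + y.1, Fin.append x.2 y.2⟩

theorem app_co {d e n : ℕ} (h : d + e = n) {x y : Y} (hx : IsCo d x) (hy : IsCo e y) :
    IsCo n (app x y) := by
  obtain ⟨h4, h5⟩ := hx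
  obtain ⟨h7, h8⟩ := hy
  refine ⟨?_, ?_⟩
  · intro i
    show 1 ≤ Fin.append x.2 y.2 i
    refine Fin.addCases (fun i => ?_) (fun i => ?_) i
    · rw [Fin.append_left]; exact h4 i
    · rw [Fin.append_right]; exact h7 i
  · show ∑ i, Fin.append x.2 y.2 i = n
    rw [Fin.sum_univ_add]
    simp only [Fin.append_left, Fin.append_right]
    rw [h5, h8, h]

section NF

variable {k F : Type} [Field k] [Field F] [Algebra k F]

/-- The number of the factorisations. -/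
noncomputable def NF (f : k[X][X]) (t : F) (y : Y) : ℝ := ((FacR (evt (k := k) t) f y.2).ncard : ℝ)

/-- The indicator of irreducibility at good points. -/
noncomputable def JJ (g : ℕ) (f : k[X][X]) (t : F) : ℝ := ∑ y ∈ Co (2 * g + 1), wt y.1 * NF f t y

/-- The bound for `JJ`. -/
noncomputable def BJ (g : ℕ) : ℕ := (Co (2 * g + 1)).card * (2 ^ (2 * g + 1)) ^ (2 * g + 1)

theorem NF_le {f : k[X][X]} (hf : f.Monic) {n : ℕ} (hd : f.natDegree = n) (t : F) (y : Y)
    (hy : y.1 ≤ n) : |NF f t y| ≤ (((2 ^ n) ^ n : ℕ) : ℝ) := by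
  unfold NF
  rw [abs_of_nonneg (by positivity)]
  have h4 := (tp_aux (hf.map (evt (k := k) t)) y.2).2
  rw [hf.natDegree_map, hd] at h4
  exact_mod_cast h4.trans (Nat.pow_le_pow_right (by positivity) hy)

theorem abs_JJ {g : ℕ} {f : k[X][X]} (hf : f.Monic) (hd : f.natDegree = 2 * g + 1) (t : F) :
    |JJ g f t| ≤ (BJ g : ℝ) := by
  unfold JJ BJ
  refine (Finset.abs_sum_le_sum_abs _ _).trans ?_
  have h1 : ∀ y ∈ Co (2 * g + 1), |wt y.1 * NF f t y| ≤
      (((2 ^ (2 * g + 1)) ^ (2 * g + 1) : ℕ) : ℝ) := by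
    intro y hy
    obtain ⟨⟨h1, h2⟩, -⟩ := mem_Co.1 hy
    rw [abs_mul]
    calc _ ≤ 1 * (((2 ^ (2 * g + 1)) ^ (2 * g + 1) : ℕ) : ℝ) :=
          mul_le_mul (abs_wt h1) (NF_le hf hd t y h2) (abs_nonneg _) zero_le_one
      _ = _ := one_mul _
  refine (Finset.sum_le_sum h1).trans (le_of_eq ?_)
  rw [Finset.sum_const, nsmul_eq_mul]
  push_cast
  ring

theorem JJ_good (hComb : P_COMB) {g : ℕ} {f : k[X][X]} (hf : f.Monic)
    (hd : f.natDegree = 2 * g + 1) (t : F) (hs : Squarefree (f.map (evt (k := k) t))) :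
    JJ g f t = if nf f t = 1 then 1 else 0 := by
  have hm : (f.map (evt (k := k) t)).Monic := hf.map _
  have hd' : (f.map (evt (k := k) t)).natDegree = 2 * g + 1 := by rw [hf.natDegree_map, hd]
  have h1 := comb1 hComb hm hs (by omega)
  rw [hd'] at h1
  have h2 : JJ g f t = ∑ j ∈ Co (2 * g + 1), wt j.1 * (Tp (f.map (evt (k := k) t)) j.2).ncard := rfl
  rw [h2, ← h1]
  have h3 : Irreducible (f.map (evt (k := k) t)) ↔ nf f t = 1 := by
    unfold nf
    constructor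
    · intro h
      rw [UniqueFactorizationMonoid.normalizedFactors_irreducible h]
      rfl
    · exact fun h => Run7.h908.PL.irr_of_nf hm h
  by_cases h4 : nf f t = 1
  · rw [if_pos (h3.2 h4), if_pos h4]
  · rw [if_neg (fun h => h4 (h3.1 h)), if_neg h4]

theorem sum_wt (hComb : P_COMB) (g : ℕ) : ∑ y ∈ Co (2 * g + 1), wt y.1 = del0 g := by
  rw [comb2 hComb (by omega)]
  unfold del0
  push_cast
  ring

theorem S1_NF [Fintype F] (f : k[X][X]) (hf : f.Monic) (d e : ℕ) (t : F) :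
    S1 f hf d e t = ∑ j ∈ Co d ×ˢ Co e, wt j.1.1 * wt j.2.1 * NF f t (app j.1 j.2) := rfl

end NF

section sums

variable {k : Type} [Field k]

theorem main_wt (hComb : P_COMB) {d e : ℕ} (hd : 1 ≤ d) (he : 1 ≤ e) (M : ℝ) :
    ∑ j ∈ Co d ×ˢ Co e, wt j.1.1 * wt j.2.1 * M = M / (d * e) := by
  rw [← Finset.sum_mul]
  have e1 : ∑ j ∈ Co d ×ˢ Co e, wt j.1.1 * wt j.2.1 = (∑ i ∈ Co d, wt i.1) *
      ∑ i ∈ Co e, wt i.1 := by
    rw [Finset.sum_mul_sum, Finset.sum_product]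
  rw [e1, comb2 hComb hd, comb2 hComb he]
  have : (d : ℝ) ≠ 0 := by
    have : (1 : ℝ) ≤ d := by exact_mod_cast hd
    linarith
  have : (e : ℝ) ≠ 0 := by
    have : (1 : ℝ) ≤ e := by exact_mod_cast he
    linarith
  field_simp

/-- Weighted sums over the pairs. -/
theorem pair_sum (hComb : P_COMB) {d e n : ℕ} (hd : 1 ≤ d) (he : 1 ≤ e) (hde : d + e = n)
    (x : Y × Y → ℝ) (M E : ℝ)
    (h : ∀ j : Y × Y, j ∈ Co d ×ˢ Co e → IsCo n (app j.1 j.2) → |x j - M| ≤ E) :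
    |∑ j ∈ Co d ×ˢ Co e, wt j.1.1 * wt j.2.1 * x j - M / (d * e)| ≤
      (Co d ×ˢ Co e).card * E := by
  rw [← main_wt hComb hd he, ← Finset.sum_sub_distrib]
  refine (Finset.abs_sum_le_sum_abs _ _).trans ?_
  have hj : ∀ j ∈ Co d ×ˢ Co e, |wt j.1.1 * wt j.2.1 * x j - wt j.1.1 * wt j.2.1 * M| ≤ E := by
    intro j hj
    have hj' := hj
    rw [Finset.mem_product, mem_Co, mem_Co] at hj'
    obtain ⟨⟨⟨h3, -⟩, h4, h5⟩, ⟨h6, -⟩, h7, h8⟩ := hj'
    have e1 := h j hj (app_co hde ⟨h4, h5⟩ ⟨h7, h8⟩)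
    rw [← mul_sub, abs_mul, abs_mul]
    calc |wt j.1.1| * |wt j.2.1| * _ ≤ 1 * 1 * E := by
          refine mul_le_mul (mul_le_mul (abs_wt h3) (abs_wt h6) (abs_nonneg _) zero_le_one) e1
            (abs_nonneg _) (by norm_num)
      _ = _ := by ring
  refine (Finset.sum_le_sum hj).trans (le_of_eq ?_)
  rw [Finset.sum_const, nsmul_eq_mul]

/-- `sum_S1` with a weight. -/
theorem sum_S1' {g : ℕ} {f : k[X][X]} (hf : f.Monic) (hComb : P_COMB)
    {d e : ℕ} (hd : 1 ≤ d) (he : 1 ≤ e) (hde : d + e = 2 * g + 1)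
    {F : Type} [Field F] [Fintype F] [Algebra k F] (R : F → ℝ) (M E : ℝ)
    (h1 : ∀ y : Y, IsCo (2 * g + 1) y → |(∑ t : F, NF f t y * R t) - M| ≤ E) :
    |(∑ t : F, S1 f hf d e t * R t) - M / (d * e)| ≤ (Co d ×ˢ Co e).card * E := by
  have e1 : ∑ t : F, S1 f hf d e t * R t = ∑ j ∈ Co d ×ˢ Co e, wt j.1.1 * wt j.2.1 *
      (∑ t : F, NF f t (app j.1 j.2) * R t) := by
    simp_rw [S1_NF, Finset.sum_mul]
    rw [Finset.sum_comm]
    refine Finset.sum_congr rfl fun j _ => ?_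
    rw [Finset.mul_sum]
    exact Finset.sum_congr rfl fun t _ => by ring
  rw [e1]
  exact pair_sum hComb hd he hde _ M E fun j _ hj => h1 _ hj

/-- `sum_Sm` with a weight. -/
theorem sum_Sm' {g : ℕ} {f : k[X][X]} (hf : f.Monic) (hComb : P_COMB)
    {d e : ℕ} (hd : 1 ≤ d) (he : 1 ≤ e) (hde : d + e = 2 * g + 1) (hev : Even d)
    {F : Type} [Field F] [Fintype F] [Algebra k F] (z : Fin (2 * g + 1) → k[X]) (R : F → ℝ)
    (M E : ℝ) (h1 : ∀ y : Y, IsCo (2 * g + 1) y → |(∑ t : F, NF f t y * R t) - M| ≤ E)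
    (h2 : ∀ y : Y, IsCo (2 * g + 1) y → ∀ B : Finset (Fin y.1), B.Nonempty →
      Even (∑ i ∈ B, y.2 i) →
      |∑ t : F, (∑ᶠ a ∈ FacR (evt (k := k) t) f y.2,
        chi (nv (∏ i ∈ B, a i) (zp (evt (k := k) t) z))) * R t| ≤ E) :
    |(∑ t : F, Sm f hf d e z t * R t) - M / 2 / (d * e)| ≤ (Co d ×ˢ Co e).card * E := by
  set cc : Y × Y → F → ℝ := fun j t =>
    ∑ᶠ a ∈ FacR (evt (k := k) t) f (Fin.append j.1.2 j.2.2),
      chi (nv (∏ i ∈ Finset.univ.map (Fin.castAddEmb j.2.1), a i) (zp (evt (k := k) t) z)) with hcc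
  have hS : ∀ t : F, Sm f hf d e z t =
      ∑ j ∈ Co d ×ˢ Co e, wt j.1.1 * wt j.2.1 * ((NF f t (app j.1 j.2) - cc j t) / 2) := by
    intro t
    unfold Sm
    refine Finset.sum_congr rfl fun j _ => ?_
    congr 1
    have e1 : NF f t (app j.1 j.2) = ∑ x ∈ (tp_fin (hf.map (evt (k := k) t))
        (Fin.append j.1.2 j.2.2)).toFinset, (1 : ℝ) := by
      rw [Finset.sum_const, nsmul_eq_mul, mul_one, ← Set.ncard_eq_toFinset_card _
        (tp_fin (hf.map (evt (k := k) t)) (Fin.append j.1.2 j.2.2))]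
      rfl
    have e2 : cc j t = ∑ x ∈ (tp_fin (hf.map (evt (k := k) t))
        (Fin.append j.1.2 j.2.2)).toFinset,
        chi (nv (∏ i, x (Fin.castAdd j.2.1 i)) (zp (evt (k := k) t) z)) := by
      rw [hcc]
      dsimp only
      rw [← finsum_mem_eq_finite_toFinset_sum]
      refine finsum_mem_congr rfl fun x _ => ?_
      rw [Finset.prod_map]
      rfl
    rw [e1, e2, ← Finset.sum_sub_distrib, Finset.sum_div]
    rfl
  have hsum : ∑ t : F, Sm f hf d e z t * R t = ∑ j ∈ Co d ×ˢ Co e, wt j.1.1 * wt j.2.1 *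
      ((∑ t : F, NF f t (app j.1 j.2) * R t - ∑ t : F, cc j t * R t) / 2) := by
    simp_rw [hS, Finset.sum_mul]
    rw [Finset.sum_comm]
    refine Finset.sum_congr rfl fun j _ => ?_
    rw [← Finset.sum_sub_distrib, Finset.sum_div, Finset.mul_sum]
    exact Finset.sum_congr rfl fun t _ => by ring
  rw [hsum]
  refine pair_sum hComb hd he hde _ (M / 2) E fun j hj hco => ?_
  rw [Finset.mem_product, mem_Co, mem_Co] at hj
  obtain ⟨⟨⟨h3, -⟩, h4, h5⟩, ⟨h6, -⟩, h7, h8⟩ := hj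
  have e1 := h1 _ hco
  have e2 : |∑ t : F, cc j t * R t| ≤ E := h2 (app j.1 j.2) hco
    (Finset.univ.map (Fin.castAddEmb j.2.1)) (by
    rw [Finset.map_nonempty]
    exact ⟨⟨0, by omega⟩, Finset.mem_univ _⟩) (by
    show Even (∑ i ∈ Finset.univ.map (Fin.castAddEmb j.2.1), Fin.append j.1.2 j.2.2 i)
    rw [Finset.sum_map]
    have : ∀ i, Fin.append j.1.2 j.2.2 (Fin.castAddEmb j.2.1 i) = j.1.2 i := fun i =>
      Fin.append_left _ _ i
    rw [Finset.sum_congr rfl fun i _ => this i, h5]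
    exact hev)
  rw [abs_le] at e1 e2 ⊢
  constructor <;> linarith

end sums

section jf

variable {k : Type} [Field k] {ι : Type} [Fintype ι]

theorem dB_ne {g N : ι → ℕ} {r : ι → k[X]} {f : ι → k[X][X]} (hf : JF g N r f) : dB g f ≠ 0 := by
  unfold dB
  rw [Finset.prod_ne_zero_iff]
  exact fun i _ => (hf.fm i).fam.sq.ne_zero

theorem dB_sqf {g N : ι → ℕ} {r : ι → k[X]} {f : ι → k[X][X]} (hf : JF g N r f) :
    Squarefree (dB g f) := by
  unfold dB
  refine Finset.squarefree_prod_of_pairwise_isCoprime ?_ fun i _ => (hf.fm i).fam.sq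
  intro i _ j _ hij
  exact (hf.cop i j hij).isRelPrime

theorem dsc_dvd (g : ι → ℕ) (f : ι → k[X][X]) (i : ι) : dsc (g i) (f i) ∣ dB g f :=
  Finset.dvd_prod_of_mem _ (Finset.mem_univ i)

theorem ndvd_dsc {g : ι → ℕ} {f : ι → k[X][X]} {Q : k[X]} (h : ¬ Q ∣ dB g f) (i : ι) :
    ¬ Q ∣ dsc (g i) (f i) := fun h1 => h (h1.trans (dsc_dvd g f i))

theorem ae_dsc {F : Type} [Field F] [Algebra k F] {g : ι → ℕ} {f : ι → k[X][X]} {t : F}
    (h : aeval t (dB g f) ≠ 0) (i : ι) : aeval t (dsc (g i) (f i)) ≠ 0 := by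
  obtain ⟨w, hw⟩ := dsc_dvd g f i
  rw [hw, map_mul] at h
  exact left_ne_zero_of_mul h

/-- Every one of the polynomials has full geometric Galois group. -/
theorem full_of {f : ι → k[X][X]} (h : JFull f) (i : ι) : Full (f i) := by
  intro k' _ _ _ _ K' W _ _ _ _ _ _ σ
  obtain ⟨τ, hτ⟩ := h k' K' W (Function.update (fun j => 1) i σ)
  refine ⟨τ, fun x => ?_⟩
  have := hτ i x
  rwa [Function.update_self] at this

end jf

end Run7.h908.JP
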