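import Pool.Agent.Run7.h784.JP.HI
import Pool.Agent.Run7.h886.PL.Fin
import Pool.Agent.Run7.h886.PL.Bnd
import Pool.Agent.N738.PJ.Exs
import Pool.Agent.N615.JM.FamT2
import Pool.Agent.N615.JM.Tch
import Pool.Agent.N415.PJ.MAIN

/-!
# Common parts of the hand-ins on fibre products (helper908)
-/

set_option autoImplicit false
set_option linter.all false

namespace Run7.h908.JP.Fib

open Polynomial Filter IsDedekindDomain
open scoped Classical Topology
open Run7.h784.JPH (discriminant HasHeight atInfinity InFamily twist Twists weight alpha)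

/-- A positive proportion of the polynomials `f` of genus `g` and height `2 N` is in the family and has
discriminant prime to `Δ`, as `N → ∞`. -/
def PositiveProportion (g : ℕ) {k : Type} [Field k] (Δ : k[X]) : Prop :=
  ∃ c : ℝ, 0 < c ∧ ∀ᶠ N : ℕ in atTop, 0 < {f : k[X][X] | HasHeight g (2 * N) f}.ncard ∧
    c * ({f : k[X][X] | HasHeight g (2 * N) f}.ncard : ℝ) ≤
      ({f : k[X][X] | InFamily g N f ∧ IsCoprime Δ (discriminant g f)}.ncard : ℝ)

section fam

variable {k : Type} [Field k]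

/-- the discriminant is prime to every prime modulo which the polynomial is irreducible -/
theorem not_dvd [Finite k] {P : k[X]} (hPm : P.Monic) (hP : Irreducible P) {g : ℕ} {f A : k[X][X]}
    (hm : f.Monic) (hd : f.natDegree = 2 * g + 1)
    (hA : Irreducible (A.map (Ideal.Quotient.mk (Ideal.span {P}))))
    (hc : ∀ j, P ∣ f.coeff j - A.coeff j) : ¬ P ∣ discriminant g f := by
  have hmax : (Ideal.span {P}).IsMaximal :=
    PrincipalIdealRing.isMaximal_of_irreducible hP
  let _ : Field (k[X] ⧸ Ideal.span {P}) := Ideal.Quotient.field _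
  have h1 : Module.Finite k (AdjoinRoot P) := hPm.finite_adjoinRoot
  have h2 : Finite (AdjoinRoot P) := Module.finite_of_finite k
  have hfin : Finite (k[X] ⧸ Ideal.span {P}) := h2
  set φ := Ideal.Quotient.mk (Ideal.span {P}) with hφ
  have h3 : f.map φ = A.map φ := by
    ext j
    rw [coeff_map, coeff_map, ← sub_eq_zero, ← map_sub, hφ, Ideal.Quotient.eq_zero_iff_mem,
      Ideal.mem_span_singleton]
    exact hc j
  rw [← h3] at hA
  have h4 : (f.map φ).Separable := PerfectField.separable_of_irreducible hA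
  intro h5
  have h6 : φ (f.resultant (derivative f) (2 * g + 1) (2 * g)) = 0 := by
    rw [hφ, Ideal.Quotient.eq_zero_iff_mem, Ideal.mem_span_singleton]
    exact h5
  rw [← resultant_map_map, ← derivative_map] at h6
  have hdeg : (f.map φ).natDegree = 2 * g + 1 := by rw [hm.natDegree_map, hd]
  obtain ⟨j, hj⟩ := Nat.exists_eq_add_of_le (m := (derivative (f.map φ)).natDegree) (n := 2 * g)
    (by refine (natDegree_derivative_le _).trans ?_; rw [hdeg]; omega)
  have h7 := resultant_add_right_deg (f.map φ) (derivative (f.map φ)) (2 * g + 1)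
    (derivative (f.map φ)).natDegree j le_rfl
  rw [← hj, h6] at h7
  have h8 : (f.map φ).coeff (2 * g + 1) = 1 := by
    rw [← hdeg]
    exact (hm.map φ).coeff_natDegree
  rw [h8, one_pow, one_mul, ← hdeg] at h7
  exact (resultant_eq_zero_iff.1 h7.symm).2 h4

theorem inFamily_of {g N : ℕ} {r : k[X]} {f : k[X][X]} (hr : Pool.Agent.N352.PJ.GoodR g r)
    {S : Finset k[X]} {h : k[X] → k[X][X]} (hf : Pool.Agent.N352.PJ.Fam g N r S h f) :
    InFamily g N f := by
  have h1 : atInfinity g (2 * N) f = r := by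
    ext i
    rw [Run7.h784.JPH.coeff_atInfinity]
    by_cases h1 : i = 2 * g + 1
    · rw [if_pos h1, h1]
      have h3 := hr.1.coeff_natDegree
      rw [hr.2.2.1] at h3
      exact h3.symm
    · rw [if_neg h1]
      by_cases h2 : i ≤ 2 * g
      · rw [if_pos h2, hf.inf i h2]
      · rw [if_neg h2, coeff_eq_zero_of_natDegree_lt (by rw [hr.2.2.1]; omega)]
  exact ⟨⟨hf.ht.mon, hf.ht.deg, hf.ht.tr, hf.ht.ht⟩, by rw [h1]; exact hr.2.1, hf.sq⟩

/-- A positive proportion of all `f` is in the family with discriminant prime to `Δ`. -/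
theorem many [Finite k] (g : ℕ) (hg : 1 ≤ g) (hp : ((2 * g + 1).factorial : k) ≠ 0)
    (Δ : k[X]) (hΔ : Δ ≠ 0) : PositiveProportion g Δ := by
  obtain ⟨r, hr⟩ := Pool.Agent.N738.PJ.gr g k hp
  obtain ⟨T, hTdef⟩ : ∃ T, T = Run7.h875.TS.prD Δ := ⟨_, rfl⟩
  have hT : ∀ P ∈ T, P.Monic ∧ Irreducible P := by
    intro P hP
    rw [hTdef] at hP
    have := (Run7.h875.TS.mem_prD hΔ).1 hP
    exact ⟨this.1, this.2.1⟩
  obtain ⟨⟨A, hA⟩, -⟩ := Pool.Agent.N615.JM.tch g k hg hp T hT
  obtain ⟨c, hc, h⟩ := Pool.Agent.N615.JM.famt g k hg hp r hr T A hA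
  obtain ⟨N₀, hN₀⟩ := h ∅ (fun _ => 0) (fun Q hQ => absurd hQ (Finset.notMem_empty Q))
    (Finset.disjoint_empty_left _)
  have hq : (0 : ℝ) < Nat.card k := by exact_mod_cast Nat.card_pos
  refine ⟨c / (Nat.card k : ℝ) ^ (2 * g), div_pos hc (pow_pos hq _), ?_⟩
  filter_upwards [eventually_ge_atTop N₀] with N hN
  have h1 := hN₀ N hN
  rw [Finset.prod_empty, Nat.cast_one, one_mul] at h1
  have hset : {f : k[X][X] | HasHeight g (2 * N) f} =
      {f : k[X][X] | Pool.Agent.N352.PJ.Ht g (2 * N) f} :=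
    Set.ext fun f => ⟨fun h => ⟨h.monic, h.degree, h.trace, h.height⟩,
      fun h => ⟨h.mon, h.deg, h.tr, h.ht⟩⟩
  obtain ⟨hfin, hle⟩ := Pool.Agent.N415.PJMAIN.ht_card (k := k) g (2 * N)
  have hsub : {f : k[X][X] | Pool.Agent.N874.JM.FamT g N r ∅ (fun _ => 0) T A f} ⊆
      {f : k[X][X] | InFamily g N f ∧ IsCoprime Δ (discriminant g f)} := by
    intro f hf
    refine ⟨inFamily_of hr hf.fam, ?_⟩
    refine isCoprime_of_irreducible_dvd (fun h0 => hΔ h0.1) fun z hz hzΔ hzd => ?_
    have hz0 : z ≠ 0 := hz.ne_zero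
    have hPm : (normalize z).Monic := Polynomial.monic_normalize hz0
    have hPi : Irreducible (normalize z) := (normalize_associated z).symm.irreducible hz
    have hPΔ : normalize z ∣ Δ := (normalize_associated z).dvd.trans hzΔ
    have hPd : normalize z ∣ discriminant g f := (normalize_associated z).dvd.trans hzd
    have hPT : normalize z ∈ T := by
      rw [hTdef]
      exact (Run7.h875.TS.mem_prD hΔ).2 ⟨hPm, hPi, hPΔ⟩
    obtain ⟨-, -, -, -, -, hAi⟩ := hA _ hPT
    exact not_dvd hPm hPi hf.fam.ht.mon hf.fam.ht.deg hAi (hf.con _ hPT) hPd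
  have hsub2 : {f : k[X][X] | InFamily g N f ∧ IsCoprime Δ (discriminant g f)} ⊆
      {f : k[X][X] | Pool.Agent.N352.PJ.Ht g (2 * N) f} :=
    fun f hf => ⟨hf.1.monic, hf.1.degree, hf.1.trace, hf.1.height⟩
  have h2 := Set.ncard_le_ncard hsub (hfin.subset hsub2)
  have h3 := Set.ncard_le_ncard hsub2 hfin
  rw [hset]
  have h4 : (0 : ℝ) < c * (Nat.card k : ℝ) ^ (2 * N * Pool.Agent.N352.PJ.dd g) :=
    mul_pos hc (pow_pos hq _)
  have h5 : (({f : k[X][X] | Pool.Agent.N874.JM.FamT g N r ∅ (fun _ => 0) T A f}.ncard : ℕ) : ℝ) ≤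
      ({f : k[X][X] | InFamily g N f ∧ IsCoprime Δ (discriminant g f)}.ncard : ℝ) := by
    exact_mod_cast h2
  refine ⟨?_, ?_⟩
  · have h6 : (0 : ℝ) <
        ({f : k[X][X] | InFamily g N f ∧ IsCoprime Δ (discriminant g f)}.ncard : ℝ) := by linarith
    have h7 : 0 < {f : k[X][X] | InFamily g N f ∧ IsCoprime Δ (discriminant g f)}.ncard := by
      exact_mod_cast h6
    omega
  · refine le_trans ?_ (h1.trans h5)
    have h8 : ({f : k[X][X] | Pool.Agent.N352.PJ.Ht g (2 * N) f}.ncard : ℝ) ≤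
        (Nat.card k : ℝ) ^ (2 * N * Pool.Agent.N352.PJ.dd g + 2 * g) := by exact_mod_cast hle
    refine (mul_le_mul_of_nonneg_left h8 (div_nonneg hc.le (pow_nonneg hq.le _))).trans
      (le_of_eq ?_)
    rw [pow_add]
    field_simp

end fam

/-- The expectation of the `i`-th coordinate. -/
theorem tsum_coord {n : ℕ} (i : Fin n) :
    ∑' d : Fin n → ℕ, (d i : ℝ) * ∏ j, alpha (d j) = ∑' d : ℕ, (d : ℝ) * alpha d := by
  obtain ⟨n1, n2, n3, n4, n5⟩ := Run7.h160.PL.num
  have hW : (0 : ℝ) < ∑' j, Run7.h286.PL.wt j := by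
    have := (abs_lt.1 n4).1
    linarith
  have ha : ∀ d, alpha d = Run7.h286.PL.wt d / ∑' j, Run7.h286.PL.wt j := fun d => rfl
  have ha0 : ∀ d, 0 ≤ alpha d := fun d => by
    rw [ha]
    exact div_nonneg (n1 d).le hW.le
  have hs1 : Summable alpha := n2.div_const _
  have hs2 : Summable fun d : ℕ => (d : ℝ) * alpha d := by
    have h1 : Summable fun d : ℕ => Run7.h286.PL.wt d * 2 ^ d / ∑' j, Run7.h286.PL.wt j :=
      n5.div_const _
    refine Summable.of_nonneg_of_le (fun d => mul_nonneg (Nat.cast_nonneg _) (ha0 d))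
      (fun d => ?_) h1
    rw [ha, ← mul_div_assoc, mul_comm (Run7.h286.PL.wt d)]
    refine div_le_div_of_nonneg_right (mul_le_mul_of_nonneg_right ?_ (n1 d).le) hW.le
    exact_mod_cast (Nat.lt_two_pow_self (n := d)).le
  have h1 : ∑' d, alpha d = 1 := by
    have h2 : ∑' d, alpha d = (∑' d, Run7.h286.PL.wt d) / ∑' j, Run7.h286.PL.wt j :=
      tsum_div_const
    rw [h2, div_self hW.ne']
  have h3 := Run7.h784.JP.tsum_pi
    (fun (j : Fin n) d => (if j = i then (d : ℝ) else 1) * alpha d) (fun j d => ?_) (fun j => ?_)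
  · have h4 : ∀ d : Fin n → ℕ, ∏ j, (if j = i then (d j : ℝ) else 1) * alpha (d j) =
        (d i : ℝ) * ∏ j, alpha (d j) := by
      intro d
      rw [Finset.prod_mul_distrib]
      congr 1
      rw [Finset.prod_ite_eq' Finset.univ i fun j => (d j : ℝ), if_pos (Finset.mem_univ _)]
    rw [tsum_congr h4] at h3
    rw [h3]
    have h5 : ∀ j : Fin n, ∑' d : ℕ, (if j = i then (d : ℝ) else 1) * alpha d =
        if j = i then ∑' d : ℕ, (d : ℝ) * alpha d else 1 := by
      intro j
      by_cases h : j = i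
      · simp [h]
      · simp [h, h1]
    rw [Finset.prod_congr rfl fun j _ => h5 j, Finset.prod_ite_eq' Finset.univ i, 
      if_pos (Finset.mem_univ _)]
  · split_ifs
    · exact mul_nonneg (Nat.cast_nonneg _) (ha0 d)
    · rw [one_mul]
      exact ha0 d
  · by_cases h : j = i
    · simpa [h] using hs2
    · simpa [h] using hs1

/-- The value of the expectation. -/
theorem mean_value : |∑' d : ℕ, (d : ℝ) * alpha d - 1.2645| < 0.0001 := by
  have h := Run7.h547.PL.qid.2.2.2.2
  have e : Run7.h286.PL.Lw (fun d => (d : ℝ)) = ∑' d : ℕ, (d : ℝ) * alpha d := by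
    unfold Run7.h286.PL.Lw
    rw [← tsum_div_const]
    refine tsum_congr fun d => ?_
    rw [mul_comm, mul_div_assoc]
    rfl
  rwa [e] at h

end Run7.h908.JP.Fib
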